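import Pool.Agent.Helper84.BT.Main

/-!
# Equal sums of prime powers with odd common value: all unknowns are bounded in terms of the smaller prime

If `p < q` are primes, `a, b ≥ 1` and `N = 1 + p + ... + p^a = 1 + q + ... + q^b` is odd, then `q < (4p)^100` and
`N ≤ exp(C (log 2p)^116)` with an absolute constant `C`.  So for every fixed `p` there are only finitely many such
solutions.
-/

set_option autoImplicit false

namespace Pool.Agent.Results.MP_57df85_nt.BoundForLargerPrime

theorem result : ∃ C : ℝ, ∀ p q a b : ℕ, p.Prime → q.Prime → p < q → 1 ≤ a → 1 ≤ b →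
    ∑ i ∈ Finset.range (a + 1), p ^ i = ∑ i ∈ Finset.range (b + 1), q ^ i →
    Odd (∑ i ∈ Finset.range (a + 1), p ^ i) →
    q < (4 * p) ^ 100 ∧
      ((∑ i ∈ Finset.range (a + 1), p ^ i : ℕ) : ℝ) ≤ Real.exp (C * Real.log (2 * p) ^ 116) :=
  Pool.Agent.Helper84.BT.pTH3

end Pool.Agent.Results.MP_57df85_nt.BoundForLargerPrime
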