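import Pool.Agent.Helper84.BT.Main

/-!
# Equal sums of prime powers with odd common value: the exponents

If `p < q` are primes, `a, b ≥ 1` and `N = 1 + p + ... + p^a = 1 + q + ... + q^b` is odd, then `a < 300 b` and
`q < 2^(30000 b)`.
-/

set_option autoImplicit false

namespace Pool.Agent.Results.MP_57df85_nt.ExponentRatio

theorem result : ∀ p q a b : ℕ, p.Prime → q.Prime → p < q → 1 ≤ a → 1 ≤ b →
    ∑ i ∈ Finset.range (a + 1), p ^ i = ∑ i ∈ Finset.range (b + 1), q ^ i →
    Odd (∑ i ∈ Finset.range (a + 1), p ^ i) →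
    a < 300 * b ∧ q < 2 ^ (30000 * b) := by
  intro p q a b hp hq hpq ha hb hN hodd
  exact Pool.Agent.Helper84.BT.pTH2 p q a b hp hq hpq ha hb hN
    ((Pool.Agent.Helper39.BT.PAR.t Pool.Agent.Helper89.BT.EVN.t p q a b hp hq hpq ha hb hN).1.1 hodd)

end Pool.Agent.Results.MP_57df85_nt.ExponentRatio
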