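import Pool.Agent.Helper7.OV.Main

/-!
# Bateman's equation has only finitely many solutions with odd common value

There are only finitely many `(p, a, q, b)` with primes `p < q`, exponents `a, b ≥ 1` and
`1 + p + ... + p^a = 1 + q + ... + q^b` odd.
-/

set_option autoImplicit false

namespace Pool.Agent.Results.MP_57df85_nt.FinitelyManyOdd

theorem result : ∃ S : Finset (ℕ × ℕ × ℕ × ℕ), ∀ p a q b : ℕ, (p, a, q, b) ∈ S ↔
    (p.Prime ∧ q.Prime ∧ p < q ∧ 1 ≤ a ∧ 1 ≤ b ∧
      ∑ i ∈ Finset.range (a + 1), p ^ i = ∑ i ∈ Finset.range (b + 1), q ^ i ∧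
      Odd (∑ i ∈ Finset.range (a + 1), p ^ i)) := by
  refine ⟨Pool.Agent.Helper7.OV.pFinite.toFinset, fun p a q b => ?_⟩
  rw [Set.Finite.mem_toFinset]
  exact Iff.rfl

end Pool.Agent.Results.MP_57df85_nt.FinitelyManyOdd
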