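import Pool.Agent.Helper7.BM.Main

/-!
# Equal sums of prime powers: counting all solutions

For every `n ≥ 5` and `ε > 0` the number of solutions of `1 + p + ... + p^a = 1 + q + ... + q^b` in primes
`p < q ≤ X` and exponents `a, b ≥ 1`, for which `a` is not one of `5, ..., n - 1`, is at most `C X^(1/n + ε)`.
(For `n = 5` these are all solutions with `q ≤ X`.)
-/

set_option autoImplicit false

namespace Pool.Agent.Results.MP_57df85_nt.PrimeBases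

theorem result : ∀ n : ℕ, 5 ≤ n → ∀ ε : ℝ, 0 < ε → ∃ C : ℝ, ∀ X : ℕ,
    ∃ S : Finset (ℕ × ℕ × ℕ × ℕ),
      (∀ p a q b : ℕ, (p, a, q, b) ∈ S ↔
        (p.Prime ∧ q.Prime ∧ p < q ∧ q ≤ X ∧ 1 ≤ a ∧ 1 ≤ b ∧
          ∑ i ∈ Finset.range (a + 1), p ^ i = ∑ i ∈ Finset.range (b + 1), q ^ i ∧
          ¬ (5 ≤ a ∧ a < n))) ∧
      (S.card : ℝ) ≤ C * (X : ℝ) ^ ((1 : ℝ) / n + ε) := by
  intro n hn ε hε
  obtain ⟨C, hC⟩ := Pool.Agent.Helper7.BM.main1 n hn ε hε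
  refine ⟨C, fun X => ?_⟩
  obtain ⟨hfin, hcard⟩ := hC X
  refine ⟨hfin.toFinset, ?_, ?_⟩
  · intro p a q b
    rw [Set.Finite.mem_toFinset]
    constructor
    · rintro ⟨⟨h1, h2, h3, h4, h5, h6, h7⟩, h8⟩
      exact ⟨h1, h2, h3, h4, h5, h6, h7, h8⟩
    · rintro ⟨h1, h2, h3, h4, h5, h6, h7, h8⟩
      exact ⟨⟨h1, h2, h3, h4, h5, h6, h7⟩, h8⟩
  · rw [← Set.ncard_eq_toFinset_card _ hfin]
    exact hcard

end Pool.Agent.Results.MP_57df85_nt.PrimeBases
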